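import Mathlib

/-!
# Algebras with a nondegenerate trace functional and an element with bounded conjugation orbits
-/

namespace Pool.Agent.H65.PolEnd

open Polynomial

/-- Sequences which are `E`-linear combinations of bounded sequences of rational numbers. -/
def Tame {E : Type*} [Field E] [CharZero E] (a : ℕ → E) : Prop :=
  a ∈ Submodule.span E {s : ℕ → E | ∃ b : ℕ → ℚ, (∃ C : ℚ, ∀ k, |b k| ≤ C) ∧
    s = fun k => (b k : E)}

theorem Tame.bounded {E : Type*} [Field E] [CharZero E] {a : ℕ → E} (ha : Tame a) :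
    ∀ φ : E →ₗ[ℚ] ℚ, ∃ C : ℚ, ∀ k, |φ (a k)| ≤ C := by
  unfold Tame at ha
  induction ha using Submodule.span_induction with
  | mem s hs =>
    obtain ⟨b, ⟨C, hC⟩, rfl⟩ := hs
    intro φ
    refine ⟨C * |φ 1|, fun k => ?_⟩
    have h1 : φ ((b k : E)) = b k * φ 1 := by
      have : ((b k : E)) = (b k) • (1 : E) := by
        rw [Rat.smul_def, mul_one]
      rw [this, map_smul, smul_eq_mul]
    rw [h1, abs_mul]
    exact mul_le_mul_of_nonneg_right (hC k) (abs_nonneg _)
  | zero =>
    intro φ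
    exact ⟨0, fun k => by simp⟩
  | add x y _ _ hx hy =>
    intro φ
    obtain ⟨C, hC⟩ := hx φ
    obtain ⟨D, hD⟩ := hy φ
    refine ⟨C + D, fun k => ?_⟩
    rw [Pi.add_apply, map_add]
    exact (abs_add_le _ _).trans (add_le_add (hC k) (hD k))
  | smul c x _ hx =>
    intro φ
    obtain ⟨C, hC⟩ := hx (φ ∘ₗ (LinearMap.mulLeft ℚ c))
    exact ⟨C, fun k => hC k⟩

theorem Tame.add {E : Type*} [Field E] [CharZero E] {a b : ℕ → E} (ha : Tame a) (hb : Tame b) :
    Tame (fun k => a k + b k) :=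
  Submodule.add_mem _ ha hb

theorem Tame.smul {E : Type*} [Field E] [CharZero E] {a : ℕ → E} (c : E) (ha : Tame a) :
    Tame (fun k => c * a k) :=
  Submodule.smul_mem _ c ha

theorem Tame.zero {E : Type*} [Field E] [CharZero E] : Tame (fun _ => (0 : E)) :=
  Submodule.zero_mem _

theorem Tame.of_bounded {E : Type*} [Field E] [CharZero E] (b : ℕ → ℚ) (C : ℚ)
    (h : ∀ k, |b k| ≤ C) : Tame (fun k => (b k : E)) :=
  Submodule.subset_span ⟨b, ⟨C, h⟩, rfl⟩

/-- A quadratic polynomial which is tame has leading coefficient zero. -/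
theorem Tame.quadratic {E : Type*} [Field E] [CharZero E] (c₀ c₁ c₂ : E)
    (h : Tame (fun k : ℕ => c₀ + (k : E) * c₁ + (k : E) ^ 2 * c₂)) : c₂ = 0 := by
  rw [← Module.forall_dual_apply_eq_zero_iff ℚ]
  intro φ
  obtain ⟨C, hC⟩ := h.bounded φ
  have hk : ∀ (k : ℕ) (x : E), φ ((k : E) * x) = k * φ x := by
    intro k x
    rw [← nsmul_eq_mul, map_nsmul, nsmul_eq_mul]
  have hk2 : ∀ (k : ℕ) (x : E), φ ((k : E) ^ 2 * x) = k ^ 2 * φ x := by
    intro k x
    have := hk (k ^ 2) x
    push_cast at this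
    exact this
  have hf : ∀ k : ℕ, |φ c₀ + k * φ c₁ + k ^ 2 * φ c₂| ≤ C := by
    intro k
    have := hC k
    rwa [map_add, map_add, hk, hk2] at this
  by_contra hne
  have h4 : ∀ k : ℕ, 2 * (k : ℚ) ^ 2 * |φ c₂| ≤ 4 * C := by
    intro k
    have e : 2 * (k : ℚ) ^ 2 * φ c₂ =
        (φ c₀ + ((2 * k : ℕ) : ℚ) * φ c₁ + ((2 * k : ℕ) : ℚ) ^ 2 * φ c₂)
        - 2 * (φ c₀ + k * φ c₁ + k ^ 2 * φ c₂)
        + (φ c₀ + ((0 : ℕ) : ℚ) * φ c₁ + ((0 : ℕ) : ℚ) ^ 2 * φ c₂) := by
      push_cast
      ring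
    have h1 := abs_le.mp (hf (2 * k))
    have h2 := abs_le.mp (hf k)
    have h3 := abs_le.mp (hf 0)
    have e2 : 2 * (k : ℚ) ^ 2 * |φ c₂| = |2 * (k : ℚ) ^ 2 * φ c₂| := by
      rw [abs_mul, abs_of_nonneg (by positivity : (0 : ℚ) ≤ 2 * (k : ℚ) ^ 2)]
    rw [e2, e, abs_le]
    constructor
    · linarith [h1.1, h2.2, h3.1]
    · linarith [h1.2, h2.1, h3.2]
  have hpos : 0 < |φ c₂| := abs_pos.mpr hne
  obtain ⟨k, hk'⟩ := exists_nat_gt (4 * C / |φ c₂|)
  have h5 := h4 (k + 1)
  have h6 : 4 * C < k * |φ c₂| := by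
    rwa [div_lt_iff₀ hpos] at hk'
  have h7 : (k : ℚ) * |φ c₂| ≤ 2 * ((k + 1 : ℕ) : ℚ) ^ 2 * |φ c₂| := by
    apply mul_le_mul_of_nonneg_right _ hpos.le
    push_cast
    nlinarith [Nat.cast_nonneg (α := ℚ) k]
  linarith

section Key

variable {E : Type*} [Field E] [CharZero E] {A : Type*} [Ring A] [Algebra E A]

/-- The key step: conjugation by `g` has tame orbits, so `g` has no Jordan block. -/
theorem key (τ : A →ₗ[E] E)
    (hnd : ∀ x, (∀ y, τ (x * y) = 0) → x = 0) (hτ : ∀ x y, τ (x * y) = τ (y * x))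
    (hnil : ∀ x : A, x * x = 0 → τ x = 0)
    (g g' : A) (hgg' : g * g' = 1) (hg'g : g' * g = 1)
    (hb : ∀ u v : A, Tame (fun k : ℕ => τ (v * (g ^ k * u * g' ^ k))))
    (l : E) (w : A) (hc : g * w = w * g)
    (h : (g - algebraMap E A l) * ((g - algebraMap E A l) * w) = 0) :
    (g - algebraMap E A l) * w = 0 := by
  rcases eq_or_ne l 0 with rfl | hl
  · simp only [map_zero, sub_zero] at h ⊢
    calc g * w = g' * (g * (g * w)) := by rw [← mul_assoc g' g, hg'g, one_mul]
      _ = 0 := by rw [h, mul_zero]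
  set z : A := l⁻¹ • ((g - algebraMap E A l) * w) with hz
  have hgw : g * w = l • (w + z) := by
    rw [hz, smul_add, smul_smul, mul_inv_cancel₀ hl, one_smul, sub_mul, ← Algebra.smul_def]
    abel
  have hgz : g * z = l • z := by
    have : (g - algebraMap E A l) * z = 0 := by
      rw [hz, mul_smul_comm, h, smul_zero]
    rw [sub_mul, ← Algebra.smul_def, sub_eq_zero] at this
    exact this
  have hzc : g * z = z * g := by
    rw [hz, mul_smul_comm, smul_mul_assoc]
    congr 1
    rw [← mul_assoc, mul_assoc _ w g, ← hc, ← mul_assoc]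
    congr 1
    rw [mul_sub, sub_mul, Algebra.commutes]
  have hpow : ∀ k : ℕ, g ^ k * w = l ^ k • (w + (k : E) • z) := by
    intro k
    induction k with
    | zero => simp
    | succ k ih =>
      rw [pow_succ', mul_assoc, ih, mul_smul_comm, mul_add, mul_smul_comm, hgw, hgz, pow_succ,
        mul_smul]
      congr 1
      push_cast
      rw [smul_comm (k : E) l z, ← smul_add, add_smul, one_smul]
      congr 1
      abel
  have hg'z : g' * z = l⁻¹ • z := by
    have h1 : g' * (g * z) = z := by rw [← mul_assoc, hg'g, one_mul]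
    rw [hgz, mul_smul_comm] at h1
    calc g' * z = l⁻¹ • (l • (g' * z)) := by rw [smul_smul, inv_mul_cancel₀ hl, one_smul]
      _ = l⁻¹ • z := by rw [h1]
  have hg'w : g' * w = l⁻¹ • (w - z) := by
    have h1 : g' * (g * w) = w := by rw [← mul_assoc, hg'g, one_mul]
    rw [hgw, mul_smul_comm, mul_add, hg'z, smul_add, smul_smul, mul_inv_cancel₀ hl,
      one_smul] at h1
    calc g' * w = l⁻¹ • (l • (g' * w)) := by rw [smul_smul, inv_mul_cancel₀ hl, one_smul]
      _ = l⁻¹ • (w - z) := by rw [eq_sub_of_add_eq h1]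
  have hwc' : w * g' = g' * w := by
    calc w * g' = g' * (g * w) * g' := by rw [← mul_assoc g', hg'g, one_mul]
      _ = g' * w := by rw [hc, mul_assoc, mul_assoc, hgg', mul_one]
  have hzc' : z * g' = g' * z := by
    calc z * g' = g' * (g * z) * g' := by rw [← mul_assoc g', hg'g, one_mul]
      _ = g' * z := by rw [hzc, mul_assoc, mul_assoc, hgg', mul_one]
  have hpow' : ∀ k : ℕ, w * g' ^ k = (l ^ k)⁻¹ • (w - (k : E) • z) := by
    intro k
    induction k with
    | zero => simp
    | succ k ih =>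
      rw [pow_succ, ← mul_assoc, ih, smul_mul_assoc, sub_mul, smul_mul_assoc, hwc', hzc', hg'w,
        hg'z, pow_succ, mul_inv, mul_smul]
      congr 1
      push_cast
      rw [smul_comm (k : E) l⁻¹ z, ← smul_sub, add_smul, one_smul]
      congr 1
      abel
  have hzyz : ∀ y v : A, τ (v * (z * y * z)) = 0 := by
    intro y v
    have h1 := hb (w * y * w) v
    have h2 : (fun k : ℕ => τ (v * (g ^ k * (w * y * w) * g' ^ k))) = fun k : ℕ =>
        τ (v * (w * y * w)) + (k : E) * (τ (v * (z * y * w)) - τ (v * (w * y * z))) +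
          (k : E) ^ 2 * (- τ (v * (z * y * z))) := by
      funext k
      have h3 : g ^ k * (w * y * w) * g' ^ k = (w + (k : E) • z) * y * (w - (k : E) • z) := by
        calc g ^ k * (w * y * w) * g' ^ k = (g ^ k * w) * y * (w * g' ^ k) := by
              simp only [mul_assoc]
          _ = (w + (k : E) • z) * y * (w - (k : E) • z) := by
              rw [hpow, hpow', smul_mul_assoc, smul_mul_assoc, mul_smul_comm, smul_smul,
                mul_inv_cancel₀ (pow_ne_zero k hl), one_smul]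
      rw [h3]
      simp only [add_mul, mul_sub, mul_add, smul_mul_assoc, mul_smul_comm, map_add, map_sub,
        map_smul, smul_eq_mul]
      ring
    rw [h2] at h1
    have h4 := h1.quadratic
    simpa using h4
  have hz0 : z = 0 := by
    apply hnd
    intro y
    apply hnil
    have h5 : z * y * z = 0 := by
      apply hnd
      intro v
      rw [hτ]
      exact hzyz y v
    rw [← mul_assoc, h5, zero_mul]
  have h6 : (g - algebraMap E A l) * w = l • z := by
    rw [hz, smul_smul, mul_inv_cancel₀ hl, one_smul]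
  rw [h6, hz0, smul_zero]

/-- If moreover `E` is algebraically closed, then the minimal polynomial of `g` is squarefree. -/
theorem minpoly_squarefree [IsAlgClosed E] (τ : A →ₗ[E] E)
    (hnd : ∀ x, (∀ y, τ (x * y) = 0) → x = 0) (hτ : ∀ x y, τ (x * y) = τ (y * x))
    (hnil : ∀ x : A, x * x = 0 → τ x = 0)
    (g g' : A) (hgg' : g * g' = 1) (hg'g : g' * g = 1)
    (hb : ∀ u v : A, Tame (fun k : ℕ => τ (v * (g ^ k * u * g' ^ k))))
    (hint : IsIntegral E g) : Squarefree (minpoly E g) := by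
  have hne : minpoly E g ≠ 0 := minpoly.ne_zero hint
  rw [squarefree_iff_irreducible_sq_not_dvd_of_ne_zero hne]
  rintro x hx ⟨r, hr⟩
  obtain ⟨l, hl⟩ := IsAlgClosed.exists_root x (by
    rw [IsAlgClosed.degree_eq_one_of_irreducible E hx]; exact one_ne_zero)
  obtain ⟨s, hs⟩ := dvd_iff_isRoot.mpr hl
  set w : A := aeval g (s * s * r) with hw
  have hX : aeval g (X - C l) = g - algebraMap E A l := by
    rw [map_sub, aeval_X, aeval_C]
  have hc : g * w = w * g := by
    have h1 : g = aeval g (X : E[X]) := (aeval_X g).symm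
    calc g * w = aeval g (X * (s * s * r)) := by rw [map_mul, aeval_X]
      _ = aeval g ((s * s * r) * X) := by rw [mul_comm]
      _ = w * g := by rw [map_mul, aeval_X]
  have h2 : (g - algebraMap E A l) * ((g - algebraMap E A l) * w) = 0 := by
    rw [← hX, hw, ← map_mul, ← map_mul]
    have : (X - C l) * ((X - C l) * (s * s * r)) = minpoly E g := by
      rw [hr, hs]; ring
    rw [this, minpoly.aeval]
  have h3 := key τ hnd hτ hnil g g' hgg' hg'g hb l w hc h2
  rw [← hX, hw, ← map_mul] at h3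
  have h4 : minpoly E g ∣ (X - C l) * (s * s * r) := minpoly.dvd E g h3
  have h5 : minpoly E g = (X - C l) * ((X - C l) * (s * s * r)) := by
    rw [hr, hs]; ring
  have hne2 : (X - C l) * (s * s * r) ≠ 0 := by
    intro h0
    rw [h0, mul_zero] at h5
    exact hne h5
  rw [h5] at h4
  have h6 := (mul_dvd_mul_iff_right hne2).mp (by simpa using h4 : (X - C l) * ((X - C l) * (s * s * r)) ∣ 1 * ((X - C l) * (s * s * r)))
  exact (not_isUnit_X_sub_C l) (isUnit_of_dvd_one h6)

/-- Powers: if `p(g) ^ m = 0` then `p(g) = 0`. -/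
theorem aeval_eq_zero_of_pow [IsAlgClosed E] (τ : A →ₗ[E] E)
    (hnd : ∀ x, (∀ y, τ (x * y) = 0) → x = 0) (hτ : ∀ x y, τ (x * y) = τ (y * x))
    (hnil : ∀ x : A, x * x = 0 → τ x = 0)
    (g g' : A) (hgg' : g * g' = 1) (hg'g : g' * g = 1)
    (hb : ∀ u v : A, Tame (fun k : ℕ => τ (v * (g ^ k * u * g' ^ k))))
    (hint : IsIntegral E g) (p : E[X]) (m : ℕ) (hp : aeval g (p ^ m) = 0) : aeval g p = 0 := by
  have h1 := minpoly_squarefree τ hnd hτ hnil g g' hgg' hg'g hb hint
  have h2 : minpoly E g ∣ p ^ m := minpoly.dvd E g hp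
  have h3 : minpoly E g ∣ p := h1.isRadical m p h2
  exact aeval_eq_zero_of_dvd_aeval_eq_zero h3 (minpoly.aeval E g)

end Key

end Pool.Agent.H65.PolEnd
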