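import Mathlib

/-!
# Polarized endomorphisms are semisimple modulo numerical equivalence

`VarietyData F` records a smooth projective variety `X` of dimension `n` together with a Weil
cohomology `H^i(X)` with coefficients in a field `F` (for instance `ℓ`-adic cohomology,
`F = ℚ_ℓ`), the ring of correspondences `CH^n(X × X)`, the self-morphisms of `X` and the Picard
group of `X`, with their standard properties.

Idea of the proof: for all cycles `u`, `v` the intersection numbers
`(Γ_f^k u (Γ_f^t)^k · v) / q^(nk)` are bounded, since `m η ± u` is effective for a multiple of the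
ample class `η`. So conjugation by `f^*` has bounded orbits on the numerical correspondences. If
`f^*` had a Jordan block there (modulo the kernel of the trace form), with `g w = λ (w + z)` and
`g z = λ z`, then `g^k (w y w) g^(-k) = w y w + k (z y w - w y z) - k^2 z y z` for all `y`, hence
`z y z = 0` for all `y`, so `z y` is nilpotent and has trace zero, and `z = 0`.
-/

namespace Pool.Agent.H65.PolEnd

open Polynomial

universe u v w x y

/-- A smooth projective variety `X` of dimension `dim` with a Weil cohomology with coefficients
in `F` and with its correspondences of degree `0`, self-morphisms and line bundles. -/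
structure VarietyData (F : Type u) [Field F] where
  /-- the dimension `n` of `X` -/
  dim : ℕ
  /-- the cohomology `H^i(X)`, `0 ≤ i ≤ 2n`, finite-dimensional over `F` -/
  H : Fin (2 * dim + 1) → Type v
  [addCommGroupH : ∀ i, AddCommGroup (H i)]
  [moduleH : ∀ i, Module F (H i)]
  [finiteH : ∀ i, FiniteDimensional F (H i)]
  /-- the ring `CH^n(X × X)` of correspondences of degree `0`; the product is composition -/
  Corr : Type w
  [ringCorr : Ring Corr]
  /-- the action `u ↦ u^*` of correspondences on `H^i(X)` -/
  act : ∀ i, Corr →+* Module.End F (H i)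
  /-- the transposition (exchange of the two factors of `X × X`) -/
  transpose : Corr →+ Corr
  transpose_transpose : ∀ u, transpose (transpose u) = u
  transpose_mul : ∀ u v, transpose (u * v) = transpose v * transpose u
  /-- the intersection number `(u · v)` on `X × X` -/
  inter : Corr →+ Corr →+ ℤ
  /-- the Lefschetz trace formula -/
  lefschetz : ∀ u v, ((inter u (transpose v) : ℤ) : F) =
    ∑ i : Fin (2 * dim + 1), (-1 : F) ^ (i : ℕ) * LinearMap.trace F (H i) (act i (u * v))
  /-- the classes of effective cycles -/
  Eff : AddSubmonoid Corr
  /-- the self-morphisms of `X` -/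
  Mor : Type x
  /-- the graph `Γ_f` of a self-morphism, acting on cohomology as `f^*`;
  its transpose acts as `f_*` -/
  graph : Mor → Corr
  /-- the degree (`0` if `f` is not surjective) -/
  deg : Mor → ℕ
  /-- `f_* f^* = deg f` -/
  transpose_graph_mul : ∀ f, transpose (graph f) * graph f = (deg f : Corr)
  /-- the line bundles (or divisor classes) on `X` -/
  Pic : Type y
  [addCommGroupPic : AddCommGroup Pic]
  /-- the pullback of line bundles -/
  pullback : Mor → Pic → Pic
  /-- the ample classes -/
  Ample : Set Pic
  ample_nsmul : ∀ L ∈ Ample, ∀ m : ℕ, 1 ≤ m → m • L ∈ Ample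
  /-- the `n`-fold self-intersection of `p₁^* L + p₂^* L` on `X × X` -/
  power : Pic → Corr
  power_nsmul : ∀ L, ∀ m : ℕ, power (m • L) = m ^ dim • power L
  /-- `(f × f)^* u = Γ_f ∘ u ∘ Γ_f^t`, applied to the class `power L` -/
  power_pullback : ∀ f L, graph f * power L * transpose (graph f) = power (pullback f L)
  /-- positivity of the top self-intersection of the ample class `p₁^* L + p₂^* L` -/
  power_pos : ∀ L ∈ Ample, 0 < inter (power L) (power L)
  /-- if the pullback of an ample class is ample then `f` is finite (and flat), so that
  `(f × f)^* u = Γ_f ∘ u ∘ Γ_f^t` is effective for effective `u` -/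
  pullback_eff : ∀ f, (∃ L ∈ Ample, pullback f L ∈ Ample) →
    ∀ u ∈ Eff, graph f * u * transpose (graph f) ∈ Eff
  /-- each class `u` becomes effective after multiplication by `-1` and addition of a multiple
  of `power L` (hypersurfaces through a subvariety) -/
  exists_effective : ∀ L ∈ Ample, ∀ u, ∃ m : ℕ, m • power L - u ∈ Eff
  /-- intersection numbers are bounded by the degree (Chow's moving lemma) -/
  exists_bound : ∀ L ∈ Ample, ∀ v, ∃ m : ℕ, ∀ e ∈ Eff, |inter e v| ≤ m * inter e (power L)

namespace VarietyData

attribute [instance] addCommGroupH moduleH finiteH ringCorr addCommGroupPic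

variable {F : Type u} [Field F] (X : VarietyData.{u, v, w, x, y} F)

/-- `f` is polarized: `f^* L = q L` for an ample `L` and an integer `q ≥ 2`. -/
def IsPolarized (f : X.Mor) : Prop :=
  ∃ L ∈ X.Ample, ∃ q : ℕ, 2 ≤ q ∧ X.pullback f L = q • L

/-- Numerically trivial correspondences. -/
def NumTrivial (u : X.Corr) : Prop := ∀ v, X.inter u v = 0

/-- `f^*` is diagonalizable on `H^i(X)` over the algebraic closure of `F`. -/
def IsDiagonalizable (f : X.Mor) (i : Fin (2 * X.dim + 1)) : Prop :=
  ⨆ μ : AlgebraicClosure F, Module.End.eigenspace
    ((X.act i (X.graph f)).baseChange (AlgebraicClosure F)) μ = ⊤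

/-- `f^*` has no common eigenvalue on `H^i(X)` and on `H^j(X)`, `j ≠ i` (this is true for
polarized endomorphisms: the eigenvalues on `H^i` are algebraic numbers all of whose complex
absolute values are `q ^ (i / 2)`). -/
def IsSeparated (f : X.Mor) (i : Fin (2 * X.dim + 1)) : Prop :=
  ∀ j, j ≠ i → ∀ μ : AlgebraicClosure F,
    Module.End.HasEigenvalue ((X.act i (X.graph f)).baseChange (AlgebraicClosure F)) μ →
    ¬ Module.End.HasEigenvalue ((X.act j (X.graph f)).baseChange (AlgebraicClosure F)) μ

/-- The algebra of endomorphisms of `H^i(X)` generated over `F` by the algebraic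
correspondences. -/
abbrev corrAlgebra (i : Fin (2 * X.dim + 1)) : Subalgebra F (Module.End F (X.H i)) :=
  Algebra.adjoin F (Set.range (X.act i))

end VarietyData

end Pool.Agent.H65.PolEnd
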