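import Pool.Agent.H65.PolEnd.Defs

/-!
# Sanity check: the projective line

`CH^1(P^1 × P^1) = ℤ × ℤ` (the pair `(x, y)` acts by `x` on `H^0` and by `y` on `H^2`),
the self-morphisms are recorded by their degree `d`, with `f^* = 1` on `H^0` and `f^* = d` on
`H^2`, and `Pic = ℤ`.
-/

namespace Pool.Agent.H65.PolEnd

/-- The eigenvalue of a correspondence of `P^1` on `H^i`. -/
def lineScalar : Fin 3 → (ℤ × ℤ →+* ℚ) :=
  ![(Int.castRingHom ℚ).comp (RingHom.fst ℤ ℤ), (Int.castRingHom ℚ).comp (RingHom.fst ℤ ℤ),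
    (Int.castRingHom ℚ).comp (RingHom.snd ℤ ℤ)]

theorem trace_scalar (n : ℕ) (c : ℚ) :
    LinearMap.trace ℚ (Fin n → ℚ) (algebraMap ℚ (Module.End ℚ (Fin n → ℚ)) c) = c * n := by
  rw [Algebra.algebraMap_eq_smul_one, map_smul, LinearMap.trace_one, Module.finrank_fin_fun,
    smul_eq_mul]

/-- The projective line as `VarietyData`. -/
noncomputable def line : VarietyData.{0, 0, 0, 0, 0} ℚ where
  dim := 1
  H := fun i : Fin 3 => Fin ((![1, 0, 1] : Fin 3 → ℕ) i) → ℚ
  Corr := ℤ × ℤ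
  act := fun i : Fin 3 => (algebraMap ℚ _).comp (lineScalar i)
  transpose := (AddMonoidHom.snd ℤ ℤ).prod (AddMonoidHom.fst ℤ ℤ)
  transpose_transpose := fun u => rfl
  transpose_mul := fun u v => by
    ext <;> simp [mul_comm]
  inter := AddMonoidHom.mk' (fun u => AddMonoidHom.mk' (fun v => u.1 * v.2 + u.2 * v.1)
      (fun v v' => by simp only [Prod.fst_add, Prod.snd_add]; ring))
      (fun u u' => by
        refine AddMonoidHom.ext fun v => ?_
        simp only [AddMonoidHom.mk'_apply, AddMonoidHom.add_apply, Prod.fst_add, Prod.snd_add]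
        ring)
  lefschetz := fun u v => by
    rw [Fin.sum_univ_three]
    have h0 := trace_scalar 1 ((u.1 * v.1 : ℤ) : ℚ)
    have h1 := trace_scalar 0 ((u.1 * v.1 : ℤ) : ℚ)
    have h2 := trace_scalar 1 ((u.2 * v.2 : ℤ) : ℚ)
    have e : ((u.1 * v.1 + u.2 * v.2 : ℤ) : ℚ) = (-1 : ℚ) ^ 0 * (((u.1 * v.1 : ℤ) : ℚ) * 1) +
        (-1 : ℚ) ^ 1 * (((u.1 * v.1 : ℤ) : ℚ) * 0) +
        (-1 : ℚ) ^ 2 * (((u.2 * v.2 : ℤ) : ℚ) * 1) := by
      push_cast
      ring
    refine e.trans ?_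
    rw [Nat.cast_one] at h0 h2
    rw [Nat.cast_zero] at h1
    rw [← h0, ← h1, ← h2]
    rfl
  Eff := AddSubmonoid.prod (AddSubmonoid.nonneg ℤ) (AddSubmonoid.nonneg ℤ)
  Mor := ℕ
  graph := fun d => (1, d)
  deg := fun d => d
  transpose_graph_mul := fun d => by
    ext <;> simp
  Pic := ℤ
  pullback := fun d L => d * L
  Ample := {L | 0 < L}
  ample_nsmul := fun L hL m hm => by
    simp only [Set.mem_ofPred_eq, smul_eq_mul, nsmul_eq_mul] at hL ⊢
    positivity
  power := fun L => (L, L)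
  power_nsmul := fun L m => by
    ext <;> simp
  power_pullback := fun d L => by
    ext <;> simp [mul_comm]
  power_pos := fun L hL => by
    simp only [Set.mem_ofPred_eq] at hL
    simp
    positivity
  pullback_eff := fun d _ u hu => by
    obtain ⟨h1, h2⟩ := hu
    refine ⟨?_, ?_⟩ <;> simp_all
    all_goals positivity
  exists_effective := fun L hL u => by
    simp only [Set.mem_ofPred_eq] at hL
    refine ⟨u.1.natAbs + u.2.natAbs, ?_, ?_⟩
    · simp
      nlinarith [le_abs_self u.1, abs_nonneg u.2, abs_nonneg u.1]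
    · simp
      nlinarith [le_abs_self u.2, abs_nonneg u.2, abs_nonneg u.1]
  exists_bound := fun L hL v => by
    simp only [Set.mem_ofPred_eq] at hL
    refine ⟨v.1.natAbs + v.2.natAbs, fun e he => ?_⟩
    obtain ⟨h1, h2⟩ := he
    simp only [SetLike.mem_coe, AddSubmonoid.mem_nonneg] at h1 h2
    simp only [AddMonoidHom.mk'_apply]
    push_cast
    have hL1 : (1 : ℤ) ≤ L := hL
    have a1 := abs_nonneg v.1
    have a2 := abs_nonneg v.2
    calc |e.1 * v.2 + e.2 * v.1| ≤ |e.1 * v.2| + |e.2 * v.1| := abs_add_le _ _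
      _ = e.1 * |v.2| + e.2 * |v.1| := by rw [abs_mul, abs_mul, abs_of_nonneg h1, abs_of_nonneg h2]
      _ ≤ (|v.1| + |v.2|) * (e.1 + e.2) := by nlinarith
      _ ≤ (|v.1| + |v.2|) * ((e.1 + e.2) * L) := by
        apply mul_le_mul_of_nonneg_left _ (by positivity)
        nlinarith
      _ = (|v.1| + |v.2|) * (e.1 * L + e.2 * L) := by ring

/-- Every morphism of degree at least two is polarized. -/
theorem line_isPolarized (d : ℕ) (hd : 2 ≤ d) : line.IsPolarized d :=
  ⟨(1 : ℤ), by change (0 : ℤ) < 1; norm_num, d, hd, by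
    change (d : ℤ) * 1 = d • (1 : ℤ)
    simp⟩

end Pool.Agent.H65.PolEnd
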