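import Pool.Agent.H65.PolEnd.Trace

/-!
# A squarefree polynomial which kills `Γ` modulo the kernel of the trace form
-/

namespace Pool.Agent.H65.PolEnd

open Polynomial

variable {E : Type*} [Field E] [CharZero E] {ι : Type*} [Fintype ι]
  (V : ι → Type*) [∀ i, AddCommGroup (V i)] [∀ i, Module E (V i)]
  [∀ i, FiniteDimensional E (V i)] (ε : ι → E)
  {C : Type*} [Ring C] (ρ : C →+* (∀ i, Module.End E (V i)))

omit [CharZero E] in
/-- A nonzero rational polynomial kills `Γ` modulo the kernel of the trace form. -/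
theorem exists_ne_zero (Γ : C) (B : C → C → ℤ)
    (hB : ∀ u v, (B u v : E) = str V ε (ρ (u * v))) [CharZero E] :
    ∃ p : ℚ[X], p ≠ 0 ∧ ∀ x ∈ Submodule.span E (Set.range ρ),
      str V ε (aeval (ρ Γ) (p.map (algebraMap ℚ E)) * x) = 0 := by
  classical
  obtain ⟨b, hbs, hspan, hli⟩ := exists_linearIndependent E (Set.range ρ)
  have hfin : Finite b := hli.setFinite
  have hex : ∀ β : b, ∃ v : C, ρ v = β := fun β => hbs β.2
  choose v hv using hex
  let ψ : ℚ[X] →ₗ[ℚ] (b → ℚ) :=
    (Polynomial.basisMonomials ℚ).constr ℚ (fun k β => ((B (Γ ^ k) (v β) : ℤ) : ℚ))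
  have hψ : ∀ (p : ℚ[X]) (β : b), (((ψ p) β : ℚ) : E) =
      str V ε (aeval (ρ Γ) (p.map (algebraMap ℚ E)) * (β : ∀ i, Module.End E (V i))) := by
    intro p β
    induction p using Polynomial.induction_on' with
    | add p q hp hq =>
      rw [map_add, Pi.add_apply, Rat.cast_add, hp, hq, Polynomial.map_add, map_add, add_mul,
        map_add]
    | monomial n c =>
      have h1 : ψ (monomial n c) = c • fun β => ((B (Γ ^ n) (v β) : ℤ) : ℚ) := by
        have h2 : monomial n c = c • (Polynomial.basisMonomials ℚ n) := by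
          rw [Polynomial.coe_basisMonomials, smul_monomial, smul_eq_mul, mul_one]
        rw [h2, map_smul]
        congr 1
        exact Module.Basis.constr_basis _ _ _ _
      rw [h1, Pi.smul_apply, smul_eq_mul, Rat.cast_mul, Rat.cast_intCast, hB, map_monomial,
        aeval_monomial, ← Algebra.smul_def, smul_mul_assoc, map_smul, map_mul, map_pow, hv β]
      simp
  have hninj : ¬ Function.Injective ψ := by
    intro hinj
    exact Polynomial.not_finite (Module.Finite.of_injective ψ hinj)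
  rw [← LinearMap.ker_eq_bot, Submodule.eq_bot_iff] at hninj
  push Not at hninj
  obtain ⟨p, hp, hp0⟩ := hninj
  refine ⟨p, hp0, fun x hx => ?_⟩
  rw [← hspan] at hx
  induction hx using Submodule.span_induction with
  | mem x hx =>
    rw [← hψ p ⟨x, hx⟩]
    rw [LinearMap.mem_ker] at hp
    rw [hp]
    simp
  | zero => simp
  | add x y _ _ hx hy => rw [mul_add, map_add, hx, hy, add_zero]
  | smul c x _ hx => rw [mul_smul_comm, map_smul, hx, smul_zero]

theorem aeval_quot_eq_zero_iff (Γ : C) (q : E[X]) :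
    aeval (Ideal.Quotient.mk (ker V ε ρ) ⟨ρ Γ, rho_mem V ρ Γ⟩) q = 0 ↔
      ∀ x ∈ Submodule.span E (Set.range ρ), str V ε (aeval (ρ Γ) q * x) = 0 := by
  have h1 : aeval (Ideal.Quotient.mk (ker V ε ρ) ⟨ρ Γ, rho_mem V ρ Γ⟩) q =
      Ideal.Quotient.mk (ker V ε ρ) (aeval (⟨ρ Γ, rho_mem V ρ Γ⟩ : spanAlg V ρ) q) :=
    Polynomial.aeval_algHom_apply (Ideal.Quotient.mkₐ E (ker V ε ρ)) _ q
  have h2 : ((aeval (⟨ρ Γ, rho_mem V ρ Γ⟩ : spanAlg V ρ) q : spanAlg V ρ) :
      ∀ i, Module.End E (V i)) = aeval (ρ Γ) q :=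
    (Polynomial.aeval_algHom_apply (spanAlg V ρ).val _ q).symm
  rw [h1, Ideal.Quotient.eq_zero_iff_mem, mem_ker]
  constructor
  · intro h x hx
    have := h ⟨x, hx⟩
    rwa [h2] at this
  · intro h y
    rw [h2]
    exact h y y.2

theorem exists_squarefree [IsAlgClosed E] (Γ Γ' : C) (N : ℕ) (hN : N ≠ 0)
    (hΓ : ρ Γ' * ρ Γ = (N : E) • 1) (B : C → C → ℤ)
    (hB : ∀ u v, (B u v : E) = str V ε (ρ (u * v)))
    (hbd : ∀ u v, ∃ K : ℤ, ∀ k : ℕ, |B (Γ ^ k * u * Γ' ^ k) v| ≤ K * N ^ k) :
    ∃ p : ℚ[X], Squarefree p ∧ ∀ v : C,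
      str V ε (aeval (ρ Γ) (p.map (algebraMap ℚ E)) * ρ v) = 0 := by
  obtain ⟨p, hp0, hp⟩ := exists_ne_zero V ε ρ Γ B hB
  obtain ⟨P, n, hsq, -, hdvd⟩ := exists_squarefree_dvd_pow_of_ne_zero hp0
  refine ⟨P, hsq, fun v => ?_⟩
  have hNE : (N : E) ≠ 0 := Nat.cast_ne_zero.mpr hN
  set G : spanAlg V ρ := ⟨ρ Γ, rho_mem V ρ Γ⟩ with hG
  set G' : spanAlg V ρ := (N : E)⁻¹ • ⟨ρ Γ', rho_mem V ρ Γ'⟩ with hG'
  have hG'G : G' * G = 1 := by
    apply Subtype.ext
    rw [Subalgebra.coe_mul, Subalgebra.coe_one, hG', Subalgebra.coe_smul, smul_mul_assoc, hG]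
    change (N : E)⁻¹ • (ρ Γ' * ρ Γ) = 1
    rw [hΓ, smul_smul, inv_mul_cancel₀ hNE, one_smul]
  have hGG' : G * G' = 1 := by
    apply Subtype.ext
    have h1 : (G' : ∀ i, Module.End E (V i)) * (G : ∀ i, Module.End E (V i)) = 1 := by
      rw [← Subalgebra.coe_mul, hG'G, Subalgebra.coe_one]
    rw [Subalgebra.coe_mul, Subalgebra.coe_one]
    funext i
    have h2 := congrFun h1 i
    rw [Pi.mul_apply, Pi.one_apply] at h2 ⊢
    exact mul_eq_one_comm.mp h2
  set π := Ideal.Quotient.mk (ker V ε ρ) with hπ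
  have hmain := aeval_eq_zero_of_pow (quotTrace V ε ρ) (quotTrace_nondeg V ε ρ)
    (quotTrace_comm V ε ρ) (quotTrace_nil V ε ρ) (π G) (π G')
    (by rw [← map_mul, hGG', map_one]) (by rw [← map_mul, hG'G, map_one])
    (by
      intro u w
      obtain ⟨⟨a, ha⟩, rfl⟩ := Ideal.Quotient.mk_surjective u
      obtain ⟨⟨b, hb⟩, rfl⟩ := Ideal.Quotient.mk_surjective w
      have e1 : ∀ k : ℕ, quotTrace V ε ρ (Ideal.Quotient.mk _ ⟨b, hb⟩ *
          (π G ^ k * Ideal.Quotient.mk _ ⟨a, ha⟩ * π G' ^ k)) =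
          str V ε (b * ((G : ∀ i, Module.End E (V i)) ^ k * a *
            (G' : ∀ i, Module.End E (V i)) ^ k)) := by
        intro k
        rw [hπ, ← map_pow, ← map_pow, ← map_mul, ← map_mul, ← map_mul, quotTrace_mk]
        simp only [Subalgebra.coe_mul, Subalgebra.coe_pow]
      simp only [e1]
      clear e1
      rw [mem_spanAlg] at ha hb
      induction ha using Submodule.span_induction with
      | zero => simpa using Tame.zero
      | add x y _ _ hx hy =>
        simp only [mul_add, add_mul, map_add]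
        exact hx.add hy
      | smul c x _ hx =>
        simp only [mul_smul_comm, smul_mul_assoc, map_smul, smul_eq_mul]
        exact hx.smul c
      | mem x hx =>
        obtain ⟨u, rfl⟩ := hx
        induction hb using Submodule.span_induction with
        | zero => simpa using Tame.zero
        | add x y _ _ hx hy =>
          simp only [add_mul, map_add]
          exact hx.add hy
        | smul c x _ hx =>
          simp only [smul_mul_assoc, map_smul, smul_eq_mul]
          exact hx.smul c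
        | mem y hy =>
          obtain ⟨w, rfl⟩ := hy
          obtain ⟨K, hK⟩ := hbd u w
          have hNQ : (0 : ℚ) < N := by exact_mod_cast Nat.pos_of_ne_zero hN
          have h1 := Tame.of_bounded (E := E)
            (fun k => (B (Γ ^ k * u * Γ' ^ k) w : ℚ) / (N : ℚ) ^ k) (K : ℚ) (by
              intro k
              rw [abs_div, abs_of_pos (pow_pos hNQ k), div_le_iff₀ (pow_pos hNQ k)]
              exact_mod_cast hK k)
          convert h1 using 2 with k
          push_cast
          rw [hB, str_mul_comm]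
          have e2 : (G' : ∀ i, Module.End E (V i)) ^ k = ((N : E) ^ k)⁻¹ • (ρ Γ') ^ k := by
            rw [hG', Subalgebra.coe_smul, _root_.smul_pow, inv_pow]
          rw [e2, mul_smul_comm, smul_mul_assoc, map_smul, smul_eq_mul, div_eq_inv_mul, hG]
          congr 2
          simp only [map_mul, map_pow])
    ((IsIntegral.of_finite E G).map (Ideal.Quotient.mkₐ E (ker V ε ρ)))
    (P.map (algebraMap ℚ E)) n (by
      have h1 : aeval (π G) (p.map (algebraMap ℚ E)) = 0 :=
        (aeval_quot_eq_zero_iff V ε ρ Γ _).mpr hp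
      have h2 : p.map (algebraMap ℚ E) ∣ (P.map (algebraMap ℚ E)) ^ n := by
        rw [← Polynomial.map_pow]
        exact Polynomial.map_dvd _ hdvd
      exact aeval_eq_zero_of_dvd_aeval_eq_zero h2 h1)
  exact (aeval_quot_eq_zero_iff V ε ρ Γ _).mp hmain _ (Submodule.subset_span ⟨v, rfl⟩)

end Pool.Agent.H65.PolEnd
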