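import Pool.Agent.H65.PolEnd.Main

namespace Pool.Agent.H65.PolEnd

open Polynomial

/-- If the traces of all positive powers sum to zero over a set of indices, then all the
components are nilpotent. -/
theorem isNilpotent_of_traces {E : Type*} [Field E] [CharZero E] {ι : Type*} [Fintype ι]
    (V : ι → Type*) [∀ i, AddCommGroup (V i)] [∀ i, Module E (V i)]
    [∀ i, FiniteDimensional E (V i)] (s : Finset ι) (x : ∀ i, Module.End E (V i))
    (h : ∀ k, 1 ≤ k → ∑ i ∈ s, LinearMap.trace E (V i) ((x i) ^ k) = 0) :
    ∀ i ∈ s, IsNilpotent (x i) := by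
  have hint : IsIntegral E x := IsIntegral.of_finite E x
  have hne : minpoly E x ≠ 0 := minpoly.ne_zero hint
  obtain ⟨Q, hQ, hnd⟩ := exists_eq_pow_rootMultiplicity_mul_and_not_dvd (minpoly E x) hne 0
  set r := rootMultiplicity 0 (minpoly E x) with hr
  rw [C_0, sub_zero] at hQ hnd
  have hcop : IsCoprime (X ^ (r + 1) : E[X]) Q := by
    apply IsCoprime.pow_left
    exact (Irreducible.coprime_iff_not_dvd Polynomial.irreducible_X).mpr hnd
  obtain ⟨a, b, hab⟩ := hcop
  have hpi : ∀ (p : E[X]) (i : ι), aeval (x i) p = (aeval x p) i := fun p i =>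
    (Polynomial.aeval_algHom_apply (Pi.evalAlgHom E (fun i => Module.End E (V i)) i) x p)
  have hmin : ∀ i, aeval (x i) (minpoly E x) = 0 := by
    intro i
    rw [hpi, minpoly.aeval, Pi.zero_apply]
  have h2 : ∀ p : E[X], ∑ i ∈ s, LinearMap.trace E (V i) (aeval (x i) (X * p)) = 0 := by
    intro p
    induction p using Polynomial.induction_on' with
    | add p q hp hq =>
      simp only [mul_add, map_add, Finset.sum_add_distrib]
      rw [hp, hq, add_zero]
    | monomial n c =>
      have h3 : ∀ i, LinearMap.trace E (V i) (aeval (x i) (X * monomial n c)) =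
          c * LinearMap.trace E (V i) ((x i) ^ (n + 1)) := by
        intro i
        rw [map_mul, aeval_X, aeval_monomial, ← Algebra.smul_def, mul_smul_comm, ← pow_succ',
          map_smul, smul_eq_mul]
      simp only [h3]
      rw [← Finset.mul_sum, h (n + 1) (by omega), mul_zero]
  set e : E[X] := a * X ^ (r + 1) with he
  have heid : ∀ i, IsIdempotentElem (aeval (x i) e) := by
    intro i
    have h4 : e * e = e - (a * X * b) * minpoly E x := by
      rw [hQ, he]
      linear_combination (a * X ^ (r + 1)) * hab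
    unfold IsIdempotentElem
    rw [← map_mul, h4, map_sub, map_mul _ _ (minpoly E x), hmin, mul_zero, sub_zero]
  have h5 : ∑ i ∈ s, (Module.finrank E (LinearMap.range (aeval (x i) e)) : E) = 0 := by
    have h6 := h2 (a * X ^ r)
    have h7 : (X : E[X]) * (a * X ^ r) = e := by rw [he]; ring
    rw [h7] at h6
    rw [← h6]
    refine Finset.sum_congr rfl fun i _ => ?_
    exact ((LinearMap.isProj_range_iff_isIdempotentElem _).mpr (heid i)).trace.symm
  intro i hi
  have h8 : Module.finrank E (LinearMap.range (aeval (x i) e)) = 0 := by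
    have h9 : ((∑ i ∈ s, Module.finrank E (LinearMap.range (aeval (x i) e)) : ℕ) : E) = 0 := by
      rw [Nat.cast_sum]
      exact h5
    rw [Nat.cast_eq_zero] at h9
    exact (Finset.sum_eq_zero_iff.mp h9) i hi
  have h10 : aeval (x i) e = 0 := by
    rw [Submodule.finrank_eq_zero] at h8
    exact LinearMap.range_eq_bot.mp h8
  refine ⟨r, ?_⟩
  have h11 : (X : E[X]) ^ r = X ^ r * e + b * minpoly E x := by
    rw [hQ, he]
    linear_combination (-(X : E[X]) ^ r) * hab
  calc (x i) ^ r = aeval (x i) ((X : E[X]) ^ r) := by rw [aeval_X_pow]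
    _ = 0 := by
      rw [h11, map_add, map_mul, h10, mul_zero, map_mul, hmin, mul_zero, add_zero]

end Pool.Agent.H65.PolEnd
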