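import Mathlib

namespace Pool.Agent.H65.PolEnd

/-- An element of an algebra of endomorphisms which generates a nil right ideal acts as zero on a
semisimple module. -/
theorem eq_zero_of_isSemisimpleModule {F M : Type*} [Field F] [AddCommGroup M] [Module F M]
    (S : Subalgebra F (Module.End F M)) [hS : IsSemisimpleModule S M] (z : Module.End F M)
    (hz : z ∈ S) (hnil : ∀ y ∈ S, IsNilpotent (z * y)) : z = 0 := by
  -- `z` kills every simple submodule
  have h1 : ∀ W : Submodule S M, IsSimpleModule S W → ∀ w ∈ W, z w = 0 := by
    intro W hW w hw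
    by_contra hne
    have hzw : z w ∈ W := W.smul_mem ⟨z, hz⟩ hw
    have hle : Submodule.span S {z w} ≤ W := by
      rw [Submodule.span_le, Set.singleton_subset_iff]
      exact hzw
    have hat : IsAtom W := isSimpleModule_iff_isAtom.mp hW
    have h2 : Submodule.span S {z w} = W := by
      rcases hat.le_iff.mp hle with h | h
      · rw [Submodule.span_singleton_eq_bot] at h
        exact absurd h hne
      · exact h
    have h3 : w ∈ Submodule.span S {z w} := by
      rw [h2]; exact hw
    obtain ⟨⟨y, hy⟩, hyw⟩ := Submodule.mem_span_singleton.mp h3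
    have h4 : y (z w) = w := hyw
    obtain ⟨r, hr⟩ := hnil y hy
    have h5 : ∀ k : ℕ, ((z * y) ^ k) (z w) = z w := by
      intro k
      induction k with
      | zero => simp
      | succ k ih =>
        rw [pow_succ', Module.End.mul_apply, ih, Module.End.mul_apply, h4]
    have h6 := h5 r
    rw [hr, LinearMap.zero_apply] at h6
    exact hne h6.symm
  let T : Submodule S M :=
    { carrier := {w | ∀ y : S, z (y • w) = 0}
      zero_mem' := fun y => by rw [smul_zero, map_zero]
      add_mem' := fun {a b} ha hb y => by rw [smul_add, map_add, ha y, hb y, add_zero]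
      smul_mem' := fun c w hw y => by
        rw [← mul_smul]
        exact hw (y * c) }
  have h7 : (⊤ : Submodule S M) ≤ T := by
    rw [← IsSemisimpleModule.sSup_simples_eq_top S M]
    refine sSup_le fun W hW w hw y => ?_
    exact h1 W hW _ (W.smul_mem y hw)
  refine LinearMap.ext fun w => ?_
  have h8 := (h7 (Submodule.mem_top : w ∈ (⊤ : Submodule S M))) 1
  rw [one_smul] at h8
  rw [h8, LinearMap.zero_apply]

end Pool.Agent.H65.PolEnd
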