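import Pool.Agent.H65.PolEnd.Nil
import Pool.Agent.H65.PolEnd.Semisimple
import Pool.Agent.H65.PolEnd.Defs

/-!
# Polarized endomorphisms are semisimple modulo numerical equivalence: the proof
-/

namespace Pool.Agent.H65.PolEnd

open Polynomial TensorProduct

universe u v w x y

namespace VarietyData

variable {F : Type u} [Field F] (X : VarietyData.{u, v, w, x, y} F)

/-- The cohomology over the algebraic closure of `F`. -/
abbrev V (i : Fin (2 * X.dim + 1)) : Type _ :=
  TensorProduct F (AlgebraicClosure F) (X.H i)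

/-- The action on the cohomology over the algebraic closure. -/
noncomputable def rho : X.Corr →+* (∀ i, Module.End (AlgebraicClosure F) (X.V i)) :=
  RingHom.pi fun i =>
    (Module.End.baseChangeHom F (AlgebraicClosure F) (X.H i)).toRingHom.comp (X.act i)

theorem rho_apply (u : X.Corr) (i : Fin (2 * X.dim + 1)) :
    X.rho u i = (X.act i u).baseChange (AlgebraicClosure F) := rfl

/-- The signs of the Lefschetz trace formula. -/
noncomputable def sgn (i : Fin (2 * X.dim + 1)) : AlgebraicClosure F := (-1) ^ (i : ℕ)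

theorem cast_lefschetz (u v : X.Corr) :
    ((X.inter u (X.transpose v) : ℤ) : AlgebraicClosure F) = str X.V X.sgn (X.rho (u * v)) := by
  have h := congrArg (algebraMap F (AlgebraicClosure F)) (X.lefschetz u v)
  rw [map_intCast] at h
  rw [h, map_sum, str_apply]
  refine Finset.sum_congr rfl fun i _ => ?_
  rw [map_mul, map_pow, map_neg, map_one, rho_apply, LinearMap.trace_baseChange]
  rfl

theorem cast_inter (u v : X.Corr) :
    ((X.inter u v : ℤ) : AlgebraicClosure F) =
      str X.V X.sgn (X.rho u * X.rho (X.transpose v)) := by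
  have h := X.cast_lefschetz u (X.transpose v)
  rwa [X.transpose_transpose, map_mul] at h

theorem inter_nsmul_left (m : ℕ) (u v : X.Corr) :
    X.inter (m • u) v = m * X.inter u v := by
  rw [map_nsmul, AddMonoidHom.nsmul_apply, nsmul_eq_mul]

theorem inter_nsmul_right (m : ℕ) (u v : X.Corr) :
    X.inter u (m • v) = m * X.inter u v := by
  rw [map_nsmul, nsmul_eq_mul]

theorem inter_sub_left (u u' v : X.Corr) :
    X.inter (u - u') v = X.inter u v - X.inter u' v := by
  rw [map_sub, AddMonoidHom.sub_apply]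

theorem inter_add_left (u u' v : X.Corr) :
    X.inter (u + u') v = X.inter u v + X.inter u' v := by
  rw [map_add, AddMonoidHom.add_apply]

theorem inter_move [CharZero F] (f : X.Mor) (u v : X.Corr) :
    X.inter (X.graph f * u * X.transpose (X.graph f)) v =
      X.inter u (X.transpose (X.graph f) * v * X.graph f) := by
  have : ((X.inter (X.graph f * u * X.transpose (X.graph f)) v : ℤ) : AlgebraicClosure F) =
      ((X.inter u (X.transpose (X.graph f) * v * X.graph f) : ℤ) : AlgebraicClosure F) := by
    rw [cast_inter, cast_inter, X.transpose_mul, X.transpose_mul, X.transpose_transpose]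
    simp only [map_mul]
    rw [mul_assoc, mul_assoc, str_mul_comm]
    simp only [mul_assoc]
  exact_mod_cast this

theorem deg_eq [CharZero F] {f : X.Mor} {L : X.Pic} (hL : L ∈ X.Ample) {q : ℕ}
    (hf : X.pullback f L = q • L) : X.deg f = q ^ X.dim := by
  have h1 := X.power_pullback f L
  rw [hf, X.power_nsmul] at h1
  have h2 := X.inter_move f (X.power L) (X.graph f * X.power L * X.transpose (X.graph f))
  have h3 : X.transpose (X.graph f) * (X.graph f * X.power L * X.transpose (X.graph f)) *
      X.graph f = (X.deg f * X.deg f : ℕ) • X.power L := by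
    calc _ = (X.transpose (X.graph f) * X.graph f) * X.power L *
          (X.transpose (X.graph f) * X.graph f) := by simp only [mul_assoc]
      _ = _ := by
        rw [X.transpose_graph_mul, ← nsmul_eq_mul, smul_mul_assoc, ← Nat.cast_comm,
          ← nsmul_eq_mul, smul_smul]
  rw [h3, h1] at h2
  rw [inter_nsmul_left, inter_nsmul_right, inter_nsmul_right] at h2
  have h4 := X.power_pos L hL
  have h5 : (((q ^ X.dim : ℕ) : ℤ)) * (q ^ X.dim : ℕ) = ((X.deg f * X.deg f : ℕ) : ℤ) := by
    apply mul_right_cancel₀ h4.ne'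
    rw [← h2]
    ring
  have h6 : q ^ X.dim * q ^ X.dim = X.deg f * X.deg f := by exact_mod_cast h5
  exact (Nat.mul_self_inj.mp h6).symm

theorem bound {f : X.Mor} {L : X.Pic} (hL : L ∈ X.Ample) {q : ℕ} (hq : 2 ≤ q)
    (hf : X.pullback f L = q • L) (u v : X.Corr) :
    ∃ K : ℤ, ∀ k : ℕ, |X.inter (X.graph f ^ k * u * X.transpose (X.graph f) ^ k)
      (X.transpose v)| ≤ K * ((q ^ X.dim : ℕ) : ℤ) ^ k := by
  set η := X.power L with hη
  set N := q ^ X.dim with hN
  have hpe := X.pullback_eff f ⟨L, hL, by rw [hf]; exact X.ample_nsmul L hL q (by omega)⟩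
  have hpek : ∀ k : ℕ, ∀ e ∈ X.Eff,
      X.graph f ^ k * e * X.transpose (X.graph f) ^ k ∈ X.Eff := by
    intro k e he
    induction k with
    | zero => simpa using he
    | succ k ih =>
      have := hpe _ ih
      rw [pow_succ', pow_succ]
      simpa only [mul_assoc] using this
  have hηk : ∀ k : ℕ, X.graph f ^ k * η * X.transpose (X.graph f) ^ k = (N ^ k) • η := by
    intro k
    induction k with
    | zero => simp
    | succ k ih =>
      have h1 : X.graph f * η * X.transpose (X.graph f) = N • η := by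
        rw [hη, X.power_pullback, hf, X.power_nsmul]
      calc X.graph f ^ (k + 1) * η * X.transpose (X.graph f) ^ (k + 1)
          = X.graph f * (X.graph f ^ k * η * X.transpose (X.graph f) ^ k) *
            X.transpose (X.graph f) := by
              rw [pow_succ', pow_succ]; simp only [mul_assoc]
        _ = (N ^ (k + 1)) • η := by
              rw [ih, mul_smul_comm, smul_mul_assoc, h1, smul_smul, ← pow_succ]
  obtain ⟨m₁, hm₁⟩ := X.exists_effective L hL u
  obtain ⟨m₂, hm₂⟩ := X.exists_effective L hL (-u)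
  obtain ⟨M, hM⟩ := X.exists_bound L hL (X.transpose v)
  rw [← hη] at hm₁ hm₂ hM
  refine ⟨M * (m₁ + m₂) * X.inter η η + |(m₁ : ℤ) - m₂| * |X.inter η (X.transpose v)|,
    fun k => ?_⟩
  set U := X.graph f ^ k * u * X.transpose (X.graph f) ^ k with hU
  have e₁ : X.graph f ^ k * (m₁ • η - u) * X.transpose (X.graph f) ^ k =
      (m₁ * N ^ k) • η - U := by
    rw [mul_sub, sub_mul, mul_smul_comm, smul_mul_assoc, hηk, smul_smul]
  have e₂ : X.graph f ^ k * (m₂ • η - -u) * X.transpose (X.graph f) ^ k =
      (m₂ * N ^ k) • η + U := by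
    rw [sub_neg_eq_add, mul_add, add_mul, mul_smul_comm, smul_mul_assoc, hηk, smul_smul]
  have h₁ := hM _ (hpek k _ hm₁)
  have h₂ := hM _ (hpek k _ hm₂)
  rw [e₁] at h₁
  rw [e₂] at h₂
  rw [inter_sub_left, inter_sub_left, inter_nsmul_left, inter_nsmul_left] at h₁
  rw [inter_add_left, inter_add_left, inter_nsmul_left, inter_nsmul_left] at h₂
  push_cast at h₁ h₂ ⊢
  set a := X.inter U (X.transpose v)
  set b := X.inter U η
  set c := X.inter η (X.transpose v)
  set d := X.inter η η
  have hNk : (0 : ℤ) ≤ (N : ℤ) ^ k := by positivity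
  have h3 := abs_le.mp h₁
  have h4 := abs_le.mp h₂
  have h5 : |((m₁ : ℤ) - m₂) * c * (N : ℤ) ^ k| = |(m₁ : ℤ) - m₂| * |c| * (N : ℤ) ^ k := by
    rw [abs_mul, abs_mul, abs_of_nonneg hNk]
  have h6 := abs_le.mp (le_of_eq h5)
  have h7 : 2 * |a| ≤ (M * (m₁ + m₂) * d + |(m₁ : ℤ) - m₂| * |c|) * (N : ℤ) ^ k := by
    have : 2 * |a| = |2 * a| := by rw [abs_mul]; norm_num
    rw [this, abs_le]
    constructor <;> nlinarith
  have h8 := abs_nonneg a
  linarith

theorem rho_aeval (u : X.Corr) (P : ℤ[X]) :
    X.rho (aeval u P) = aeval (X.rho u) (P.map (Int.castRingHom (AlgebraicClosure F))) := by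
  induction P using Polynomial.induction_on' with
  | add p q hp hq => rw [map_add, map_add, hp, hq, Polynomial.map_add, map_add]
  | monomial n c =>
    rw [aeval_monomial, map_mul, map_pow, map_monomial, aeval_monomial]
    simp

theorem exists_poly [CharZero F] {f : X.Mor} (hf : X.IsPolarized f) :
    ∃ P : ℤ[X], Squarefree (P.map (Int.castRingHom ℚ)) ∧
      X.NumTrivial (aeval (X.graph f) P) := by
  obtain ⟨L, hL, q, hq, hfL⟩ := hf
  obtain ⟨p, hsq, hp⟩ := exists_squarefree X.V X.sgn X.rho (X.graph f)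
    (X.transpose (X.graph f)) (q ^ X.dim) (pow_ne_zero _ (by omega))
    (by
      rw [← map_mul, X.transpose_graph_mul, X.deg_eq hL hfL, map_natCast]
      rw [← Algebra.algebraMap_eq_smul_one, map_natCast])
    (fun u v => X.inter u (X.transpose v)) (fun u v => X.cast_lefschetz u v)
    (fun u v => X.bound hL hq hfL u v)
  obtain ⟨b, hb, hbp⟩ :=
    IsLocalization.integerNormalization_spec (nonZeroDivisors ℤ) (S := ℚ) p
  have hb0 : b ≠ 0 := nonZeroDivisors.ne_zero hb
  set P := IsLocalization.integerNormalization (nonZeroDivisors ℤ) p with hP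
  have hPmap : P.map (Int.castRingHom ℚ) = C (b : ℚ) * p := by
    rw [← algebraMap_int_eq, hbp, ← smul_eq_C_mul]
    ext n
    simp
  refine ⟨P, ?_, fun v => ?_⟩
  · rw [hPmap]
    have hu : IsUnit (C (b : ℚ)) := isUnit_C.mpr (isUnit_iff_ne_zero.mpr (by exact_mod_cast hb0))
    exact (hsq.squarefree_of_dvd (by
      exact (hu.mul_left_dvd).mpr dvd_rfl))
  · have h1 : ((X.inter (aeval (X.graph f) P) v : ℤ) : AlgebraicClosure F) = 0 := by
      rw [cast_inter, rho_aeval]
      have h2 : P.map (Int.castRingHom (AlgebraicClosure F)) =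
          C (b : AlgebraicClosure F) * p.map (algebraMap ℚ (AlgebraicClosure F)) := by
        have h3 : Int.castRingHom (AlgebraicClosure F) =
            (algebraMap ℚ (AlgebraicClosure F)).comp (Int.castRingHom ℚ) := RingHom.ext_int _ _
        rw [h3, ← Polynomial.map_map, hPmap, Polynomial.map_mul, map_C]
        simp
      have h4 : aeval (X.rho (X.graph f)) (C (b : AlgebraicClosure F) *
          p.map (algebraMap ℚ (AlgebraicClosure F))) = (b : AlgebraicClosure F) •
          aeval (X.rho (X.graph f)) (p.map (algebraMap ℚ (AlgebraicClosure F))) := by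
        rw [map_mul, aeval_C, ← Algebra.smul_def]
      rw [h2, h4, smul_mul_assoc, map_smul, hp (X.transpose v), smul_zero]
    exact_mod_cast h1

theorem squarefree_map [CharZero F] (P : ℤ[X]) (h : Squarefree (P.map (Int.castRingHom ℚ))) :
    Squarefree (P.map (Int.castRingHom (AlgebraicClosure F))) := by
  have h1 : (P.map (Int.castRingHom ℚ)).Separable := PerfectField.separable_iff_squarefree.mpr h
  have h2 := (h1.map (f := algebraMap ℚ (AlgebraicClosure F)))
  rw [Polynomial.map_map] at h2
  have h3 : Int.castRingHom (AlgebraicClosure F) =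
      (algebraMap ℚ (AlgebraicClosure F)).comp (Int.castRingHom ℚ) := RingHom.ext_int _ _
  rw [h3]
  exact h2.squarefree

theorem aeval_pi (A : ∀ i, Module.End (AlgebraicClosure F) (X.V i))
    (Q : (AlgebraicClosure F)[X]) (i : Fin (2 * X.dim + 1)) :
    (aeval A Q) i = aeval (A i) Q :=
  (Polynomial.aeval_algHom_apply
    (Pi.evalAlgHom (AlgebraicClosure F) (fun i => Module.End (AlgebraicClosure F) (X.V i)) i)
    A Q).symm

theorem isDiagonalizable_of_eq_zero [CharZero F] {f : X.Mor} (P : ℤ[X])
    (hsq : Squarefree (P.map (Int.castRingHom ℚ))) (i : Fin (2 * X.dim + 1))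
    (h1 : X.act i (aeval (X.graph f) P) = 0) : X.IsDiagonalizable f i := by
  have h2 : aeval (X.rho (X.graph f) i) (P.map (Int.castRingHom (AlgebraicClosure F))) = 0 := by
    have h3 : X.rho (aeval (X.graph f) P) i = 0 := by
      rw [rho_apply, h1, LinearMap.baseChange_zero]
    rw [rho_aeval, aeval_pi] at h3
    exact h3
  have h4 := Module.End.isSemisimple_of_squarefree_aeval_eq_zero
    (squarefree_map (F := F) P hsq) h2
  have h5 := h4.isFinitelySemisimple.maxGenEigenspace_eq_eigenspace
  have h6 := Module.End.iSup_maxGenEigenspace_eq_top (X.rho (X.graph f) i)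
  simp only [h5] at h6
  exact h6

/-- A polynomial in a diagonalizable endomorphism which vanishes on all eigenvalues is zero. -/
theorem aeval_eq_zero_of_eigenvalues {K M : Type*} [Field K] [AddCommGroup M] [Module K M]
    (A : Module.End K M) (hA : ⨆ μ : K, Module.End.eigenspace A μ = ⊤) (Q : K[X])
    (hQ : ∀ μ, Module.End.HasEigenvalue A μ → Q.eval μ = 0) : aeval A Q = 0 := by
  have h1 : ∀ μ, Module.End.eigenspace A μ ≤ LinearMap.ker (aeval A Q) := by
    intro μ x hx
    rw [LinearMap.mem_ker]
    rcases eq_or_ne x 0 with rfl | hx0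
    · exact map_zero _
    · have h2 : Module.End.HasEigenvector A μ x := ⟨hx, hx0⟩
      rw [Module.End.aeval_apply_of_hasEigenvector h2,
        hQ μ (Module.End.hasEigenvalue_of_hasEigenvector h2), zero_smul]
  have h3 : (⊤ : Submodule K M) ≤ LinearMap.ker (aeval A Q) := by
    rw [← hA]
    exact iSup_le h1
  exact LinearMap.ker_eq_top.mp (top_le_iff.mp h3)

/-- A nilpotent polynomial in a diagonalizable endomorphism is zero. -/
theorem aeval_eq_zero_of_isNilpotent {K M : Type*} [Field K] [AddCommGroup M] [Module K M]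
    (A : Module.End K M) (hA : ⨆ μ : K, Module.End.eigenspace A μ = ⊤) (Q : K[X])
    (hQ : IsNilpotent (aeval A Q)) : aeval A Q = 0 := by
  obtain ⟨r, hr⟩ := hQ
  apply aeval_eq_zero_of_eigenvalues A hA
  intro μ hμ
  obtain ⟨x, hx⟩ := hμ.exists_hasEigenvector
  have h1 : aeval A (Q ^ r) x = (Q ^ r).eval μ • x :=
    Module.End.aeval_apply_of_hasEigenvector hx
  rw [map_pow, hr, LinearMap.zero_apply, eval_pow] at h1
  have h2 := (smul_eq_zero.mp h1.symm).resolve_right hx.2
  exact eq_zero_of_pow_eq_zero h2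

theorem baseChange_eq_zero {i : Fin (2 * X.dim + 1)} {φ : Module.End F (X.H i)}
    (h : φ.baseChange (AlgebraicClosure F) = 0) : φ = 0 := by
  refine LinearMap.ext fun x => ?_
  have h16 := LinearMap.congr_fun h (1 ⊗ₜ[F] x)
  rw [LinearMap.baseChange_tmul, LinearMap.zero_apply] at h16
  have h17 := Module.Flat.tensorProduct_mk_injective F (X.H i) (AlgebraicClosure F)
  apply h17
  rw [LinearMap.zero_apply, map_zero]
  exact h16

theorem isNilpotent_of_baseChange {i : Fin (2 * X.dim + 1)} {φ : Module.End F (X.H i)}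
    (h : IsNilpotent (φ.baseChange (AlgebraicClosure F))) : IsNilpotent φ := by
  obtain ⟨r, hr⟩ := h
  refine ⟨r, X.baseChange_eq_zero ?_⟩
  have h1 := map_pow (Module.End.baseChangeHom F (AlgebraicClosure F) (X.H i)) φ r
  exact h1.trans hr

theorem str_eq_zero_of_numTrivial [CharZero F] {u : X.Corr} (hu : X.NumTrivial u)
    {y : ∀ i, Module.End (AlgebraicClosure F) (X.V i)} (hy : y ∈ spanAlg X.V X.rho) :
    str X.V X.sgn (X.rho u * y) = 0 := by
  rw [mem_spanAlg] at hy
  induction hy using Submodule.span_induction with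
  | mem y hy =>
    obtain ⟨w, rfl⟩ := hy
    have h1 := X.cast_lefschetz u w
    rw [hu, Int.cast_zero, map_mul] at h1
    exact h1.symm
  | zero => simp
  | add x y _ _ hx hy => rw [mul_add, map_add, hx, hy, add_zero]
  | smul c x _ hx => rw [mul_smul_comm, map_smul, hx, smul_zero]

/-- Numerically trivial correspondences act on `H^i` through the nilradical of the algebra of
correspondences. -/
theorem isNilpotent_of_numTrivial [CharZero F] {f : X.Mor} {i : Fin (2 * X.dim + 1)}
    (hd : X.IsSeparated f i) {u : X.Corr} (hu : X.NumTrivial u)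
    {y : ∀ i, Module.End (AlgebraicClosure F) (X.V i)} (hy : y ∈ spanAlg X.V X.rho) :
    IsNilpotent ((X.rho u * y) i) := by
  classical
  set A := X.rho (X.graph f) with hA
  set χ : (AlgebraicClosure F)[X] := ∏ j ∈ Finset.univ.erase i, (A j).charpoly with hχ
  have hcop : IsCoprime (A i).charpoly χ := by
    rw [Polynomial.isCoprime_iff_aeval_ne_zero_of_isAlgClosed (AlgebraicClosure F)
      (AlgebraicClosure F)]
    intro a
    by_contra hcon
    push Not at hcon
    obtain ⟨h1, h2⟩ := hcon
    rw [hχ, coe_aeval_eq_eval, eval_prod, Finset.prod_eq_zero_iff] at h2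
    rw [coe_aeval_eq_eval] at h1
    obtain ⟨j, hj, hj0⟩ := h2
    exact hd j (Finset.ne_of_mem_erase hj) a
      ((Module.End.hasEigenvalue_iff_isRoot_charpoly _ _).mpr h1)
      ((Module.End.hasEigenvalue_iff_isRoot_charpoly _ _).mpr hj0)
  obtain ⟨a, b, hab⟩ := hcop
  -- the projector onto `H^i`
  set e : ∀ i, Module.End (AlgebraicClosure F) (X.V i) := aeval A (b * χ) with he
  have he_mem : e ∈ spanAlg X.V X.rho := by
    have h1 : A ∈ spanAlg X.V X.rho := rho_mem X.V X.rho _
    exact (Algebra.adjoin_le (Set.singleton_subset_iff.mpr h1))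
      (Polynomial.aeval_mem_adjoin_singleton _ _)
  have he_j : ∀ j, j ≠ i → e j = 0 := by
    intro j hj
    have hj' : j ∈ Finset.univ.erase i := Finset.mem_erase.mpr ⟨hj, Finset.mem_univ j⟩
    rw [he, aeval_pi, map_mul, hχ,
      ← Finset.mul_prod_erase _ (fun j => (A j).charpoly) hj', map_mul,
      LinearMap.aeval_self_charpoly, zero_mul, mul_zero]
  have he_i : e i = 1 := by
    have h1 : b * χ = 1 + (-a) * (A i).charpoly := by rw [← hab]; ring
    rw [he, aeval_pi, h1, map_add, map_one, map_mul, LinearMap.aeval_self_charpoly, mul_zero,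
      add_zero]
  set x := X.rho u * y with hx
  have hx_mem : x ∈ spanAlg X.V X.rho := mul_mem (rho_mem X.V X.rho _) hy
  have hstr : ∀ k, 1 ≤ k → str X.V X.sgn (x ^ k * e) = 0 := by
    intro k hk
    obtain ⟨m, rfl⟩ := Nat.exists_eq_add_of_le hk
    have h1 : x ^ (1 + m) * e = X.rho u * (y * (x ^ m * e)) := by
      rw [pow_add, pow_one, hx]
      simp only [mul_assoc]
    rw [h1]
    exact X.str_eq_zero_of_numTrivial hu (mul_mem hy (mul_mem (pow_mem hx_mem m) he_mem))
  have htr : ∀ k, 1 ≤ k → ∑ j ∈ {i}, LinearMap.trace _ _ ((x j) ^ k) = 0 := by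
    intro k hk
    have h1 := hstr k hk
    rw [str_apply, Finset.sum_eq_single i] at h1
    · rw [Pi.mul_apply, he_i, mul_one, Pi.pow_apply] at h1
      rw [Finset.sum_singleton]
      refine (mul_eq_zero.mp h1).resolve_left ?_
      unfold sgn
      exact pow_ne_zero _ (neg_ne_zero.mpr one_ne_zero)
    · intro j _ hj
      rw [Pi.mul_apply, he_j j hj, mul_zero, map_zero, mul_zero]
    · intro h
      exact absurd (Finset.mem_univ i) h
  exact isNilpotent_of_traces X.V {i} x htr i (Finset.mem_singleton_self i)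

theorem isNilpotent_act_mul [CharZero F] {f : X.Mor} {i : Fin (2 * X.dim + 1)}
    (hd : X.IsSeparated f i) {u : X.Corr} (hu : X.NumTrivial u) (v : X.Corr) :
    IsNilpotent (X.act i (u * v)) := by
  apply X.isNilpotent_of_baseChange
  have h1 := X.isNilpotent_of_numTrivial hd hu (rho_mem X.V X.rho v)
  rwa [← map_mul, rho_apply] at h1

theorem act_eq_zero_of_isDiagonalizable [CharZero F] {f : X.Mor} {i : Fin (2 * X.dim + 1)}
    (hd : X.IsSeparated f i) (h : X.IsDiagonalizable f i) (Q : ℤ[X])
    (hQ : X.NumTrivial (aeval (X.graph f) Q)) : X.act i (aeval (X.graph f) Q) = 0 := by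
  apply X.baseChange_eq_zero
  have h1 := X.isNilpotent_of_numTrivial hd hQ (one_mem (spanAlg X.V X.rho))
  rw [mul_one, rho_aeval, aeval_pi] at h1
  have h2 := aeval_eq_zero_of_isNilpotent (X.rho (X.graph f) i) h _ h1
  rw [← rho_apply, rho_aeval, aeval_pi]
  exact h2

theorem exists_mem_spanAlg {i : Fin (2 * X.dim + 1)} {y : Module.End F (X.H i)}
    (hy : y ∈ X.corrAlgebra i) [CharZero F] :
    ∃ Y ∈ spanAlg X.V X.rho, Y i = y.baseChange (AlgebraicClosure F) := by
  induction hy using Algebra.adjoin_induction with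
  | mem y hy =>
    obtain ⟨v, rfl⟩ := hy
    exact ⟨X.rho v, rho_mem X.V X.rho v, rfl⟩
  | algebraMap c =>
    refine ⟨algebraMap (AlgebraicClosure F) _ (algebraMap F (AlgebraicClosure F) c),
      Subalgebra.algebraMap_mem _ _, ?_⟩
    refine TensorProduct.AlgebraTensorModule.curry_injective ?_
    ext x
    simp
  | add x y _ _ hx hy =>
    obtain ⟨X', hX', hX'i⟩ := hx
    obtain ⟨Y', hY', hY'i⟩ := hy
    refine ⟨X' + Y', add_mem hX' hY', ?_⟩
    rw [Pi.add_apply, hX'i, hY'i, LinearMap.baseChange_add]
  | mul x y _ _ hx hy =>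
    obtain ⟨X', hX', hX'i⟩ := hx
    obtain ⟨Y', hY', hY'i⟩ := hy
    refine ⟨X' * Y', mul_mem hX' hY', ?_⟩
    rw [Pi.mul_apply, hX'i, hY'i]
    exact (map_mul (Module.End.baseChangeHom F (AlgebraicClosure F) (X.H i)) x y).symm

/-- If `H^i(X)` is a semisimple module under the algebraic correspondences, then numerically
trivial correspondences act as zero. -/
theorem act_eq_zero_of_isSemisimpleModule [CharZero F] {f : X.Mor}
    {i : Fin (2 * X.dim + 1)} (hd : X.IsSeparated f i) {u : X.Corr} (hu : X.NumTrivial u)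
    (hS : IsSemisimpleModule (X.corrAlgebra i) (X.H i)) : X.act i u = 0 := by
  apply eq_zero_of_isSemisimpleModule (X.corrAlgebra i) (X.act i u)
    (Algebra.subset_adjoin ⟨u, rfl⟩)
  intro y hy
  obtain ⟨Y, hY, hYi⟩ := X.exists_mem_spanAlg hy
  apply X.isNilpotent_of_baseChange
  have h1 := X.isNilpotent_of_numTrivial hd hu hY
  rw [Pi.mul_apply, hYi, rho_apply] at h1
  have h2 := map_mul (Module.End.baseChangeHom F (AlgebraicClosure F) (X.H i)) (X.act i u) y
  have h3 : (X.act i u * y).baseChange (AlgebraicClosure F) =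
      (X.act i u).baseChange (AlgebraicClosure F) * y.baseChange (AlgebraicClosure F) := h2
  rw [h3]
  exact h1

end VarietyData

end Pool.Agent.H65.PolEnd
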