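import Pool.Agent.H65.PolEnd.Algebra

/-!
# Signed traces on products of endomorphism algebras
-/

namespace Pool.Agent.H65.PolEnd

open Polynomial

section Trace

variable {E : Type*} [Field E] {ι : Type*} [Fintype ι]
  (V : ι → Type*) [∀ i, AddCommGroup (V i)] [∀ i, Module E (V i)]
  (ε : ι → E)

/-- The signed trace. -/
noncomputable def str : (∀ i, Module.End E (V i)) →ₗ[E] E :=
  ∑ i, ε i • (LinearMap.trace E (V i)) ∘ₗ (LinearMap.proj i)

theorem str_apply (x : ∀ i, Module.End E (V i)) :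
    str V ε x = ∑ i, ε i * LinearMap.trace E (V i) (x i) := by
  simp [str]

theorem str_mul_comm (x y : ∀ i, Module.End E (V i)) : str V ε (x * y) = str V ε (y * x) := by
  rw [str_apply, str_apply]
  refine Finset.sum_congr rfl fun i _ => ?_
  rw [Pi.mul_apply, Pi.mul_apply, LinearMap.trace_mul_comm]

theorem str_of_isNilpotent (x : ∀ i, Module.End E (V i)) (hx : IsNilpotent x) :
    str V ε x = 0 := by
  rw [str_apply]
  refine Finset.sum_eq_zero fun i _ => ?_
  obtain ⟨n, hn⟩ := hx
  have h1 : IsNilpotent (x i) := ⟨n, by rw [← Pi.pow_apply, hn, Pi.zero_apply]⟩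
  rw [(LinearMap.isNilpotent_trace_of_isNilpotent h1).eq_zero, mul_zero]

theorem str_eq_zero_of_pow [∀ i, FiniteDimensional E (V i)] (x : ∀ i, Module.End E (V i))
    (h : ∀ j, 2 ≤ j → str V ε (x ^ j) = 0) : str V ε x = 0 := by
  have hint : IsIntegral E x := IsIntegral.of_finite E x
  have hne : minpoly E x ≠ 0 := minpoly.ne_zero hint
  obtain ⟨Q, hQ, hnd⟩ := exists_eq_pow_rootMultiplicity_mul_and_not_dvd (minpoly E x) hne 0
  set r := rootMultiplicity 0 (minpoly E x) with hr
  rw [C_0, sub_zero] at hQ hnd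
  have hcop : IsCoprime (X ^ (r + 1) : E[X]) Q := by
    apply IsCoprime.pow_left
    exact (Irreducible.coprime_iff_not_dvd Polynomial.irreducible_X).mpr hnd
  obtain ⟨a, b, hab⟩ := hcop
  have h2 : ∀ s : E[X], str V ε (aeval x (X ^ 2 * s)) = 0 := by
    intro s
    induction s using Polynomial.induction_on' with
    | add p q hp hq => rw [mul_add, map_add, map_add, hp, hq, add_zero]
    | monomial n c =>
      have : aeval x (X ^ 2 * monomial n c) = c • x ^ (n + 2) := by
        rw [map_mul, aeval_X_pow, aeval_monomial, ← Algebra.smul_def, mul_smul_comm, ← pow_add,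
          add_comm 2 n]
      rw [this, map_smul, h (n + 2) (by omega), smul_zero]
  have h3 : (X : E[X]) = X ^ 2 * (a * X ^ r) + X * b * Q := by
    calc (X : E[X]) = X * (a * X ^ (r + 1) + b * Q) := by rw [hab, mul_one]
      _ = _ := by ring
  have h4 : IsNilpotent (aeval x (X * b * Q)) := by
    refine ⟨r + 1, ?_⟩
    have h5 : (X * b * Q) ^ (r + 1) = (X * b ^ (r + 1) * Q ^ r) * minpoly E x := by
      rw [hQ]; ring
    rw [← map_pow, h5, map_mul, minpoly.aeval, mul_zero]
  calc str V ε x = str V ε (aeval x (X : E[X])) := by rw [aeval_X]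
    _ = 0 := by
      rw [h3, map_add, map_add, h2, str_of_isNilpotent V ε _ h4, add_zero]

end Trace

section Main

variable {E : Type*} [Field E] [CharZero E] {ι : Type*} [Fintype ι]
  (V : ι → Type*) [∀ i, AddCommGroup (V i)] [∀ i, Module E (V i)]
  [∀ i, FiniteDimensional E (V i)] (ε : ι → E)
  {C : Type*} [Ring C] (ρ : C →+* (∀ i, Module.End E (V i)))

/-- The algebra spanned by the image of `ρ`. -/
def spanAlg : Subalgebra E (∀ i, Module.End E (V i)) :=
  (Submodule.span E (Set.range ρ)).toSubalgebra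
    (Submodule.subset_span ⟨1, map_one ρ⟩) (by
      intro x y hx hy
      have h1 : x * y ∈ Submodule.span E (Set.range ρ) * Submodule.span E (Set.range ρ) :=
        Submodule.mul_mem_mul hx hy
      rw [Submodule.span_mul_span] at h1
      refine Submodule.span_mono ?_ h1
      rintro _ ⟨_, ⟨a, rfl⟩, _, ⟨b, rfl⟩, rfl⟩
      exact ⟨a * b, map_mul ρ a b⟩)

theorem mem_spanAlg {x : ∀ i, Module.End E (V i)} :
    x ∈ spanAlg V ρ ↔ x ∈ Submodule.span E (Set.range ρ) := Iff.rfl

theorem rho_mem (u : C) : ρ u ∈ spanAlg V ρ := Submodule.subset_span ⟨u, rfl⟩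

/-- The kernel of the trace form on `spanAlg`. -/
noncomputable def ker : Ideal (spanAlg V ρ) where
  carrier := {x | ∀ y : spanAlg V ρ, str V ε (x * y : ∀ i, Module.End E (V i)) = 0}
  zero_mem' := by
    intro y
    simp
  add_mem' := by
    intro a b ha hb y
    have h1 : ((a + b : spanAlg V ρ) : ∀ i, Module.End E (V i)) * y
        = (a : ∀ i, Module.End E (V i)) * y + (b : ∀ i, Module.End E (V i)) * y := by
      rw [Subalgebra.coe_add, add_mul]
    rw [h1, map_add, ha y, hb y, add_zero]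
  smul_mem' := by
    intro c x hx y
    have h1 : ((c • x : spanAlg V ρ) : ∀ i, Module.End E (V i)) * y
        = (c : ∀ i, Module.End E (V i)) * ((x : ∀ i, Module.End E (V i)) * y) := by
      rw [smul_eq_mul, Subalgebra.coe_mul, mul_assoc]
    rw [h1, str_mul_comm, mul_assoc]
    exact hx (y * c)

theorem mem_ker {x : spanAlg V ρ} : x ∈ ker V ε ρ ↔
    ∀ y : spanAlg V ρ, str V ε (x * y : ∀ i, Module.End E (V i)) = 0 := Iff.rfl

instance : (ker V ε ρ).IsTwoSided := by
  constructor
  intro a b ha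
  rw [mem_ker] at ha ⊢
  intro y
  rw [Subalgebra.coe_mul, mul_assoc]
  exact ha (b * y)

/-- The trace on the quotient. -/
noncomputable def quotTrace : (spanAlg V ρ ⧸ ker V ε ρ) →ₗ[E] E :=
  (Submodule.liftQ ((ker V ε ρ).restrictScalars E)
    ((str V ε) ∘ₗ (spanAlg V ρ).val.toLinearMap) (by
      intro x hx
      have := hx 1
      simpa using this)) ∘ₗ
    (Submodule.Quotient.restrictScalarsEquiv E (ker V ε ρ)).symm.toLinearMap

theorem quotTrace_mk (x : spanAlg V ρ) :
    quotTrace V ε ρ (Ideal.Quotient.mk _ x) = str V ε (x : ∀ i, Module.End E (V i)) := rfl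

theorem quotTrace_nondeg (x : spanAlg V ρ ⧸ ker V ε ρ)
    (h : ∀ y, quotTrace V ε ρ (x * y) = 0) : x = 0 := by
  obtain ⟨a, rfl⟩ := Ideal.Quotient.mk_surjective x
  rw [Ideal.Quotient.eq_zero_iff_mem, mem_ker]
  intro y
  have := h (Ideal.Quotient.mk _ y)
  rwa [← map_mul, quotTrace_mk, Subalgebra.coe_mul] at this

theorem quotTrace_comm (x y : spanAlg V ρ ⧸ ker V ε ρ) :
    quotTrace V ε ρ (x * y) = quotTrace V ε ρ (y * x) := by
  obtain ⟨a, rfl⟩ := Ideal.Quotient.mk_surjective x
  obtain ⟨b, rfl⟩ := Ideal.Quotient.mk_surjective y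
  rw [← map_mul, ← map_mul, quotTrace_mk, quotTrace_mk, Subalgebra.coe_mul, Subalgebra.coe_mul,
    str_mul_comm]

theorem quotTrace_nil (x : spanAlg V ρ ⧸ ker V ε ρ) (h : x * x = 0) :
    quotTrace V ε ρ x = 0 := by
  obtain ⟨a, rfl⟩ := Ideal.Quotient.mk_surjective x
  rw [← map_mul, Ideal.Quotient.eq_zero_iff_mem, mem_ker] at h
  rw [quotTrace_mk]
  apply str_eq_zero_of_pow
  intro j hj
  obtain ⟨m, rfl⟩ := Nat.exists_eq_add_of_le hj
  have := h (a ^ m)
  rw [pow_add, pow_two]
  simpa using this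

end Main

end Pool.Agent.H65.PolEnd
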